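import Mathlib

set_option autoImplicit false
set_option linter.unusedSectionVars false

namespace Pool.Agent.Results.MP_8a2df8_gt.WeakProductCompact

open Filter Topology Set

universe u v

/-- `C_p(X)`: the continuous real functions on `X` with the topology of pointwise convergence. -/
abbrev Cp (X : Type u) [TopologicalSpace X] : Type u := {f : X → ℝ // Continuous f}

/-- `A` is countably compact in `Z`: each infinite subset of `A` has an accumulation point in `Z`. -/
def CountablyCompactIn {Z : Type u} [TopologicalSpace Z] (A : Set Z) : Prop :=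
  ∀ B : Set Z, B ⊆ A → B.Infinite → ∃ z : Z, AccPt z (𝓟 B)

/-- g-space. -/
def GSpace (Z : Type u) [TopologicalSpace Z] : Prop :=
  ∀ A : Set Z, CountablyCompactIn A → IsCompact (closure A)

/-- weakly Grothendieck: `C_p(X)` is a g-space. -/
def WeaklyGrothendieck (X : Type u) [TopologicalSpace X] : Prop := GSpace (Cp X)

/-- Grothendieck: every subspace of `C_p(X)` is a g-space. -/
def Grothendieck (X : Type u) [TopologicalSpace X] : Prop := ∀ S : Set (Cp X), GSpace S

section general

variable {Z : Type u} [TopologicalSpace Z]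

theorem exists_mapClusterPt [T1Space Z] {A : Set Z} (hA : CountablyCompactIn A) (w : ℕ → Z)
    (hw : ∀ n, w n ∈ A) : ∃ z, MapClusterPt z atTop w := by
  by_cases hfin : (Set.range w).Finite
  · have : ∃ z ∈ Set.range w, ∃ᶠ n in atTop, w n = z := by
      by_contra hcon
      push Not at hcon
      have h1 : ∀ᶠ n in atTop, ∀ z ∈ Set.range w, w n ≠ z :=
        (hfin.eventually_all).2 fun z hz => by simpa using hcon z hz
      obtain ⟨n, hn⟩ := h1.exists
      exact hn (w n) ⟨n, rfl⟩ rfl
    obtain ⟨z, -, hz⟩ := this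
    refine ⟨z, mapClusterPt_iff_frequently.2 fun s hs => hz.mono fun n hn => ?_⟩
    rw [hn]
    exact mem_of_mem_nhds hs
  · obtain ⟨z, hz⟩ := hA (Set.range w) (by rintro _ ⟨n, rfl⟩; exact hw n) hfin
    refine ⟨z, mapClusterPt_iff_frequently.2 fun s hs => ?_⟩
    rw [frequently_atTop]
    intro N
    rw [accPt_iff_frequently] at hz
    have hF : (((fun n => w n) '' (Set.Iio N)) \ {z}).Finite :=
      ((Set.finite_Iio N).image _).sdiff
    have h2 : (((fun n => w n) '' (Set.Iio N)) \ {z})ᶜ ∈ 𝓝 z :=
      hF.isClosed.isOpen_compl.mem_nhds (by simp)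
    obtain ⟨y, ⟨hyz, n, rfl⟩, hys, hyF⟩ := (hz.and_eventually (inter_mem hs h2)).exists
    refine ⟨n, ?_, hys⟩
    by_contra hlt
    push Not at hlt
    exact hyF ⟨⟨n, hlt, rfl⟩, hyz⟩

theorem countablyCompactIn_of_seq {A : Set Z}
    (h : ∀ w : ℕ → Z, (∀ n, w n ∈ A) → ∃ z, MapClusterPt z atTop w) :
    CountablyCompactIn A := by
  intro B hB hinf
  obtain ⟨w, hw⟩ : ∃ w : ℕ ↪ Z, ∀ n, w n ∈ B :=
    ⟨(hinf.natEmbedding B).trans (Function.Embedding.subtype _), fun n => (hinf.natEmbedding B n).2⟩
  obtain ⟨z, hz⟩ := h w (fun n => hB (hw n))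
  refine ⟨z, accPt_iff_frequently.2 ?_⟩
  rw [mapClusterPt_iff_frequently] at hz
  rw [frequently_iff]
  intro s hs
  have h1 := hz s hs
  have h2 : ∃ n, w n ∈ s ∧ w n ≠ z := by
    by_contra hcon
    push Not at hcon
    rw [frequently_atTop] at h1
    obtain ⟨a, -, ha⟩ := h1 0
    obtain ⟨b, hb, hb'⟩ := h1 (a + 1)
    have : w a = w b := (hcon a ha).trans (hcon b hb').symm
    have := w.injective this
    omega
  obtain ⟨n, hn, hn'⟩ := h2
  exact ⟨w n, hn, hn', hw n⟩

variable {X : Type v} {e : Z → X → ℝ}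

theorem cluster_eval {ι : Type*} {l : Filter ι} (he : Continuous e) {w : ι → Z} {z : Z}
    (h : MapClusterPt z l w) {x : X} {c : ℝ}
    (hc : Tendsto (fun i => e (w i) x) l (𝓝 c)) : e z x = c := by
  have h1 : MapClusterPt (e z x) l (fun i => e (w i) x) :=
    h.continuousAt_comp (f := fun f : Z => e f x)
      ((continuous_apply x).comp he).continuousAt
  have h2 : (𝓝 (e z x) ⊓ map (fun i => e (w i) x) l).NeBot := h1
  have h3 : (𝓝 (e z x) ⊓ 𝓝 c).NeBot := h2.mono (inf_le_inf_left _ hc)
  exact eq_of_nhds_neBot h3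

variable {A : Set Z}

theorem bounded (he : Continuous e)
    (hA : ∀ w : ℕ → Z, (∀ n, w n ∈ A) → ∃ z, MapClusterPt z atTop w) (x : X) :
    ∃ M : ℝ, ∀ f ∈ A, |e f x| ≤ M := by
  by_contra hcon
  push Not at hcon
  choose w hw hwx using fun n : ℕ => hcon n
  obtain ⟨z, hzc⟩ := hA w hw
  have h1 : MapClusterPt (e z x) atTop (fun i => e (w i) x) :=
    hzc.continuousAt_comp (f := fun f : Z => e f x)
      ((continuous_apply x).comp he).continuousAt
  have h2 : ∀ᶠ y in 𝓝 (e z x), |y| < |e z x| + 1 :=
    (continuous_abs.tendsto (e z x)).eventually (gt_mem_nhds (by linarith))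
  have h3 := h1.frequently h2
  obtain ⟨N, hN⟩ := exists_nat_gt (|e z x| + 1)
  have h4 : ∀ᶠ n : ℕ in atTop, ¬ |e (w n) x| < |e z x| + 1 := by
    filter_upwards [eventually_ge_atTop N] with n hn
    have : (N : ℝ) ≤ n := by exact_mod_cast hn
    have := hwx n
    linarith
  exact h3 h4

/-- a point of the pointwise closure of a relatively countably compact set agrees on every
countable set with an element of the space -/
theorem countable_approx (he : Continuous e)
    (hA : ∀ w : ℕ → Z, (∀ n, w n ∈ A) → ∃ z, MapClusterPt z atTop w)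
    {g : X → ℝ} (hg : g ∈ closure (e '' A)) {T : Set X} (hT : T.Countable) :
    ∃ z ∈ closure A, ∀ x ∈ T, e z x = g x := by
  by_cases hne : T.Nonempty
  · obtain ⟨t, ht⟩ := hT.exists_eq_range hne
    have key : ∀ n : ℕ, ∃ f ∈ A, ∀ i ≤ n, |e f (t i) - g (t i)| < 1 / ((n : ℝ) + 1) := by
      intro n
      have hopen : IsOpen {h : X → ℝ | ∀ i ∈ Finset.range (n + 1),
          |h (t i) - g (t i)| < 1 / ((n : ℝ) + 1)} := by
        have : {h : X → ℝ | ∀ i ∈ Finset.range (n + 1),
          |h (t i) - g (t i)| < 1 / ((n : ℝ) + 1)} = ⋂ i ∈ Finset.range (n + 1),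
          {h : X → ℝ | |h (t i) - g (t i)| < 1 / ((n : ℝ) + 1)} := by
          ext h; simp
        rw [this]
        exact isOpen_biInter_finset fun i _ => isOpen_lt (by fun_prop) continuous_const
      obtain ⟨h, hh, f, hf, rfl⟩ := mem_closure_iff.1 hg _ hopen (by
        intro i _; simp; positivity)
      exact ⟨f, hf, fun i hi => hh i (Finset.mem_range.2 (Nat.lt_succ_of_le hi))⟩
    choose w hw hwx using key
    obtain ⟨z, hzc⟩ := hA w hw
    refine ⟨z, ?_, fun x hx => ?_⟩
    · refine mem_closure_iff_clusterPt.2 (ClusterPt.mono (show ClusterPt z (map w atTop) from hzc) ?_)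
      exact tendsto_principal.2 (Eventually.of_forall hw)
    obtain ⟨i, rfl⟩ : x ∈ Set.range t := ht ▸ hx
    refine cluster_eval he hzc ?_
    rw [tendsto_iff_dist_tendsto_zero]
    refine squeeze_zero' (Eventually.of_forall fun n => dist_nonneg) ?_
      (tendsto_one_div_add_atTop_nhds_zero_nat)
    filter_upwards [eventually_ge_atTop i] with n hn
    rw [Real.dist_eq]
    exact (hwx n i hn).le
  · rw [Set.not_nonempty_iff_eq_empty] at hne
    have : A.Nonempty := by
      by_contra hA'
      rw [Set.not_nonempty_iff_eq_empty] at hA'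
      simp [hA'] at hg
    obtain ⟨a, ha⟩ := this
    exact ⟨a, subset_closure ha, by simp [hne]⟩

theorem isCompact_closure_of (he : IsInducing e)
    (hA : ∀ w : ℕ → Z, (∀ n, w n ∈ A) → ∃ z, MapClusterPt z atTop w)
    (hr : closure (e '' A) ⊆ Set.range e) : IsCompact (closure A) := by
  rw [he.closure_eq_preimage_closure_image]
  refine he.isCompact_preimage' ?_ hr
  choose M hM using fun x : X => bounded he.continuous hA x
  have hcomp : IsCompact (Set.univ.pi fun x : X => Set.Icc (-(M x)) (M x)) :=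
    isCompact_univ_pi fun x => isCompact_Icc
  refine hcomp.of_isClosed_subset isClosed_closure ?_
  refine closure_minimal ?_ hcomp.isClosed
  rintro _ ⟨f, hf, rfl⟩ x _
  exact abs_le.1 (hM x f hf)

end general


/-- every sequence in `A` has a cluster point in the ambient space -/
def SeqCl {Z : Type u} [TopologicalSpace Z] (A : Set Z) : Prop :=
  ∀ w : ℕ → Z, (∀ n, w n ∈ A) → ∃ z, MapClusterPt z atTop w

theorem SeqCl.image {Z : Type u} {Z' : Type v} [TopologicalSpace Z] [TopologicalSpace Z']
    {A : Set Z} (hA : SeqCl A) {θ : Z → Z'} (hθ : Continuous θ) : SeqCl (θ '' A) := by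
  intro w hw
  choose a ha haw using hw
  obtain ⟨z, hz⟩ := hA a ha
  refine ⟨θ z, ?_⟩
  have := hz.continuousAt_comp hθ.continuousAt
  have h2 : θ ∘ a = w := funext haw
  rwa [h2] at this

theorem mapClusterPt_subtype {Z : Type u} [TopologicalSpace Z] {p : Z → Prop} {ι : Type*}
    {l : Filter ι} {w : ι → {z // p z}} {z : {z // p z}}
    (h : MapClusterPt z.1 l (fun i => (w i).1)) : MapClusterPt z l w := by
  rw [mapClusterPt_iff_frequently] at h ⊢
  intro s hs
  obtain ⟨t, ht, hts⟩ := (mem_nhds_subtype _ _ _).1 hs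
  exact (h t ht).mono fun n hn => hts hn

/-- the property of `X` which is used: pointwise limits of relatively countably compact sets
are continuous -/
def Good (X : Type u) [TopologicalSpace X] : Prop :=
  ∀ A : Set (Cp X), SeqCl A → ∀ h ∈ closure (Subtype.val '' A : Set (X → ℝ)), Continuous h

theorem good_of_weakly {X : Type u} [TopologicalSpace X] (hX : WeaklyGrothendieck X) : Good X := by
  intro A hA h hh
  have h1 : IsCompact (closure A) := hX A (countablyCompactIn_of_seq hA)
  have h2 : IsCompact (Subtype.val '' closure A : Set (X → ℝ)) := h1.image continuous_subtype_val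
  have h3 : closure (Subtype.val '' A : Set (X → ℝ)) ⊆ Subtype.val '' closure A :=
    closure_minimal (Set.image_mono subset_closure) h2.isClosed
  obtain ⟨f, -, rfl⟩ := h3 hh
  exact f.2

theorem weakly_of_good {X : Type u} [TopologicalSpace X] (hX : Good X) : WeaklyGrothendieck X := by
  intro A hA
  have hseq := exists_mapClusterPt hA
  refine isCompact_closure_of (e := fun f : Cp X => f.1) IsInducing.subtypeVal hseq ?_
  intro h hh
  exact ⟨⟨h, hX A hseq h hh⟩, rfl⟩

/-- transfer along continuous maps of function spaces -/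
theorem transfer {X : Type u} {W : Type v} [TopologicalSpace X] [TopologicalSpace W]
    (hX : Good X) {A : Set (Cp W)} (hA : SeqCl A) {g : W → ℝ}
    (hg : g ∈ closure (Subtype.val '' A : Set (W → ℝ))) (Θ : (W → ℝ) → (X → ℝ))
    (hΘ : Continuous Θ) (hΘc : ∀ f : W → ℝ, Continuous f → Continuous (Θ f)) :
    Continuous (Θ g) := by
  let θ : Cp W → Cp X := fun f => ⟨Θ f.1, hΘc f.1 f.2⟩
  have hθ : Continuous θ := by
    refine Continuous.subtype_mk ?_ _
    exact hΘ.comp continuous_subtype_val
  refine hX (θ '' A) (hA.image hθ) _ ?_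
  have h1 : Θ g ∈ closure (Θ '' (Subtype.val '' A)) :=
    image_closure_subset_closure_image hΘ ⟨g, hg, rfl⟩
  have h2 : Θ '' (Subtype.val '' A) = Subtype.val '' (θ '' A) := by
    rw [Set.image_image, Set.image_image]
  rwa [h2] at h1

/-- Grothendieck's theorem: compact spaces are good. -/
theorem good_of_compact (K : Type u) [TopologicalSpace K] [CompactSpace K] : Good K := by
  intro A hA g hg
  rw [continuous_iff_continuousAt]
  intro p
  by_contra hcon
  rw [Metric.continuousAt_iff'] at hcon
  push Not at hcon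
  obtain ⟨ε, hε, hfreq⟩ := hcon
  -- inductive construction
  obtain ⟨s, hsP, hsr⟩ := exists_seq_of_forall_finset_exists (α := ℕ × Cp K × K)
    (fun x => x.2.1 ∈ A ∧ |x.2.1.1 p - g p| < 1 / ((x.1 : ℝ) + 1) ∧ ε ≤ |g x.2.2 - g p|)
    (fun x y => x.1 < y.1 ∧ |y.2.1.1 x.2.2 - g x.2.2| < 1 / ((y.1 : ℝ) + 1) ∧
      |x.2.1.1 y.2.2 - x.2.1.1 p| < 1 / ((y.1 : ℝ) + 1)) (by
      intro s _
      obtain ⟨N, hN⟩ : ∃ N : ℕ, ∀ x ∈ s, x.1 < N :=
        ⟨(s.sup fun x => x.1) + 1, fun x hx => Nat.lt_succ_of_le (Finset.le_sup (f := fun x => x.1) hx)⟩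
      have hpos : (0 : ℝ) < 1 / ((N : ℝ) + 1) := by positivity
      -- choose the function
      have hopen : IsOpen ({h : K → ℝ | |h p - g p| < 1 / ((N : ℝ) + 1)} ∩
          ⋂ x ∈ s, {h : K → ℝ | |h x.2.2 - g x.2.2| < 1 / ((N : ℝ) + 1)}) := by
        refine IsOpen.inter (isOpen_lt (by fun_prop) continuous_const) ?_
        exact isOpen_biInter_finset fun i _ => isOpen_lt (by fun_prop) continuous_const
      obtain ⟨h, ⟨hh1, hh2⟩, f, hf, rfl⟩ := mem_closure_iff.1 hg _ hopen (by
        refine ⟨by simpa using hpos, ?_⟩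
        simp only [Set.mem_iInter]
        intro i _
        simpa using hpos)
      simp only [Set.mem_iInter] at hh2
      -- choose the point
      have hev : ∀ᶠ k in 𝓝 p, ∀ x ∈ s, |x.2.1.1 k - x.2.1.1 p| < 1 / ((N : ℝ) + 1) := by
        rw [Filter.eventually_all_finset]
        intro x _
        have hc : Continuous fun k => |x.2.1.1 k - x.2.1.1 p| :=
          (x.2.1.2.sub continuous_const).abs
        have := hc.tendsto p
        refine this.eventually (gt_mem_nhds ?_)
        simpa using hpos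
      obtain ⟨k, hk1, hk2⟩ := (hfreq.and_eventually hev).exists
      refine ⟨(N, f, k), ⟨hf, hh1, ?_⟩, ?_⟩
      · simpa [Real.dist_eq] using hk1
      · intro x hx
        exact ⟨hN x hx, hh2 x hx, hk2 x hx⟩)
  have hidx : ∀ n, n ≤ (s n).1 := by
    intro n
    induction n with
    | zero => exact Nat.zero_le _
    | succ n ih => exact Nat.succ_le_of_lt (lt_of_le_of_lt ih (hsr n (n + 1) (Nat.lt_succ_self n)).1)
  have hsmall : ∀ n, 1 / (((s n).1 : ℝ) + 1) ≤ 1 / ((n : ℝ) + 1) := by
    intro n
    apply one_div_le_one_div_of_le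
    · positivity
    · have : (n : ℝ) ≤ (s n).1 := by exact_mod_cast hidx n
      linarith
  obtain ⟨f, hf⟩ := hA (fun n => (s n).2.1) (fun n => (hsP n).1)
  obtain ⟨q, -, hq⟩ := isCompact_univ.exists_mapClusterPt (f := (atTop : Filter ℕ))
    (u := fun n => (s n).2.2) (by simp)
  have he : Continuous (fun f : Cp K => f.1) := continuous_subtype_val
  -- values of `f`
  have hf1 : ∀ i, f.1 (s i).2.2 = g (s i).2.2 := by
    intro i
    refine cluster_eval he hf ?_
    rw [tendsto_iff_dist_tendsto_zero]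
    refine squeeze_zero' (Eventually.of_forall fun n => dist_nonneg) ?_
      (tendsto_one_div_add_atTop_nhds_zero_nat)
    filter_upwards [eventually_gt_atTop i] with n hn
    rw [Real.dist_eq]
    exact (hsr i n hn).2.1.le.trans (hsmall n)
  have hlim : Tendsto (fun n => (s n).2.1.1 p) atTop (𝓝 (g p)) := by
    rw [tendsto_iff_dist_tendsto_zero]
    refine squeeze_zero' (Eventually.of_forall fun n => dist_nonneg) ?_
      (tendsto_one_div_add_atTop_nhds_zero_nat)
    refine Eventually.of_forall fun n => ?_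
    rw [Real.dist_eq]
    exact (hsP n).2.1.le.trans (hsmall n)
  have hfi : ∀ i, (s i).2.1.1 q = (s i).2.1.1 p := by
    intro i
    have h1 : MapClusterPt ((s i).2.1.1 q) atTop (fun n => (s i).2.1.1 (s n).2.2) :=
      hq.continuousAt_comp (f := (s i).2.1.1) (s i).2.1.2.continuousAt
    have h2 : Tendsto (fun n => (s i).2.1.1 (s n).2.2) atTop (𝓝 ((s i).2.1.1 p)) := by
      rw [tendsto_iff_dist_tendsto_zero]
      refine squeeze_zero' (Eventually.of_forall fun n => dist_nonneg) ?_
        (tendsto_one_div_add_atTop_nhds_zero_nat)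
      filter_upwards [eventually_gt_atTop i] with n hn
      rw [Real.dist_eq]
      exact (hsr i n hn).2.2.le.trans (hsmall n)
    have h3 : (𝓝 ((s i).2.1.1 q) ⊓ 𝓝 ((s i).2.1.1 p)).NeBot :=
      NeBot.mono (show (𝓝 ((s i).2.1.1 q) ⊓ map (fun n => (s i).2.1.1 (s n).2.2) atTop).NeBot
        from h1) (inf_le_inf_left _ h2)
    exact eq_of_nhds_neBot h3
  have hfq : f.1 q = g p := by
    refine cluster_eval he hf ?_
    simp only [hfi]
    exact hlim
  have h1 : MapClusterPt (f.1 q) atTop (fun n => f.1 (s n).2.2) :=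
    hq.continuousAt_comp (f := f.1) f.2.continuousAt
  simp only [hf1] at h1
  have h2 := h1.frequently (p := fun y => |y - g p| < ε) (by
    have hc : Continuous fun y : ℝ => |y - g p| := by fun_prop
    have := hc.tendsto (f.1 q)
    refine this.eventually (gt_mem_nhds ?_)
    rw [hfq]
    simpa using hε)
  obtain ⟨n, hn⟩ := h2.exists
  exact absurd hn (not_lt.2 (hsP n).2.2)

/-! ### increments of running maxima -/

section M

variable {K : Type v} (k : ℕ → K)

/-- running maximum of `|a|` along the sequence `k` -/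
def M (a : K → ℝ) : ℕ → ℝ
  | 0 => |a (k 0)|
  | (n + 1) => max (M a n) |a (k (n + 1))|

theorem M_mono_succ (a : K → ℝ) (n : ℕ) : M k a n ≤ M k a (n + 1) := le_max_left _ _

theorem M_mono (a : K → ℝ) : Monotone (M k a) := monotone_nat_of_le_succ (M_mono_succ k a)

theorem le_M (a : K → ℝ) (n : ℕ) : |a (k n)| ≤ M k a n := by
  cases n with
  | zero => exact le_rfl
  | succ n => exact le_max_right _ _

theorem M_nonneg (a : K → ℝ) (n : ℕ) : 0 ≤ M k a n := (abs_nonneg _).trans (le_M k a n)

theorem M_le (a : K → ℝ) {B : ℝ} (hB : ∀ x, |a x| ≤ B) (n : ℕ) : M k a n ≤ B := by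
  induction n with
  | zero => exact hB _
  | succ n ih => exact max_le ih (hB _)

theorem M_lip (a b : K → ℝ) {ε : ℝ} (h : ∀ x, |a x - b x| ≤ ε) (n : ℕ) :
    M k a n ≤ M k b n + ε := by
  have h1 : ∀ x, |a x| ≤ |b x| + ε := by
    intro x
    have := abs_sub_abs_le_abs_sub (a x) (b x)
    linarith [h x]
  induction n with
  | zero => exact h1 _
  | succ n ih =>
    refine max_le (ih.trans ?_) ((h1 _).trans ?_)
    · linarith [M_mono_succ k b n]
    · linarith [le_M k b (n + 1)]

/-- increments -/
def I (a : K → ℝ) (n : ℕ) : ℝ := M k a (n + 1) - M k a n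

theorem I_nonneg (a : K → ℝ) (n : ℕ) : 0 ≤ I k a n := sub_nonneg.2 (M_mono_succ k a n)

theorem sum_I (a : K → ℝ) (m n : ℕ) :
    ∑ i ∈ Finset.range n, I k a (i + m) = M k a (n + m) - M k a m := by
  induction n with
  | zero => simp
  | succ n ih =>
    rw [Finset.sum_range_succ, ih, I]
    have : n + 1 + m = n + m + 1 := by omega
    rw [this]
    ring

theorem summable_I (a : K → ℝ) {B : ℝ} (hB : ∀ x, |a x| ≤ B) : Summable (I k a) := by
  refine summable_of_sum_range_le (c := B) (I_nonneg k a) fun n => ?_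
  have := sum_I k a 0 n
  simp only [add_zero] at this
  rw [this]
  linarith [M_le k a hB n, M_nonneg k a 0]

theorem M_le_tsum (a : K → ℝ) {B : ℝ} (hB : ∀ x, |a x| ≤ B) (n : ℕ) :
    M k a n ≤ M k a 0 + ∑' i, I k a i := by
  have h1 := (summable_I k a hB).sum_le_tsum (Finset.range n) (fun i _ => I_nonneg k a i)
  have h2 := sum_I k a 0 n
  simp only [add_zero] at h2
  rw [h2] at h1
  linarith

theorem continuous_M {W : Type*} [TopologicalSpace W] {F : W → K → ℝ}
    (hF : ∀ n, Continuous fun w => F w (k n)) (n : ℕ) : Continuous fun w => M k (F w) n := by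
  induction n with
  | zero => exact (hF 0).abs
  | succ n ih => exact ih.max (hF (n + 1)).abs

theorem continuous_I {W : Type*} [TopologicalSpace W] {F : W → K → ℝ}
    (hF : ∀ n, Continuous fun w => F w (k n)) (n : ℕ) : Continuous fun w => I k (F w) n :=
  (continuous_M k hF (n + 1)).sub (continuous_M k hF n)

end M

/-- uniform closeness of the sections of a jointly continuous function, `K` compact -/
theorem uniform_sections {X : Type u} {K : Type v} [TopologicalSpace X] [TopologicalSpace K]
    [CompactSpace K] {f : X × K → ℝ} (hf : Continuous f) (x₀ : X) {ε : ℝ} (hε : 0 < ε) :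
    ∀ᶠ x in 𝓝 x₀, ∀ k, |f (x, k) - f (x₀, k)| < ε := by
  let F : C(X, C(K, ℝ)) := ContinuousMap.curry ⟨f, hf⟩
  have h1 := F.continuous.tendsto x₀
  rw [Metric.tendsto_nhds] at h1
  filter_upwards [h1 ε hε] with x hx k
  have := (ContinuousMap.dist_lt_iff hε).1 hx k
  simpa [F, Real.dist_eq] using this

section key

variable {X : Type u} {K : Type v} [TopologicalSpace X] [TopologicalSpace K] [CompactSpace K]

theorem key (hX : Good X) {A : Set (Cp (X × K))} (hA : SeqCl A) {g : X × K → ℝ}
    (hg : g ∈ closure (Subtype.val '' A : Set (X × K → ℝ)))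
    (hgX : ∀ k, Continuous fun x => g (x, k)) (hgK : ∀ x, Continuous fun k => g (x, k))
    (k : ℕ → K) (x₀ : X) {ε : ℝ} (hε : 0 < ε) :
    ∀ᶠ x in 𝓝 x₀, ∀ i, |g (x, k i) - g (x₀, k i)| < ε := by
  -- differences
  let d : (X × K → ℝ) → X → K → ℝ := fun h x y => h (x, y) - h (x₀, y)
  have hbd : ∀ x, ∃ B : ℝ, ∀ y, |d g x y| ≤ B := by
    intro x
    have hc : Continuous (d g x) := (hgK x).sub (hgK x₀)
    obtain ⟨B, hB⟩ := isCompact_univ.exists_bound_of_continuousOn hc.continuousOn
    exact ⟨B, fun y => by simpa using hB y (Set.mem_univ y)⟩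
  choose B hB using hbd
  let Θ : (X × K → ℝ) → X → ℝ := fun h x => ∑' n, min (I k (d g x) n) (I k (d h x) n)
  have hΘ : Continuous Θ := by
    refine continuous_pi fun x => ?_
    refine continuous_tsum (u := I k (d g x)) (fun n => ?_) (summable_I k _ (hB x)) ?_
    · refine continuous_const.min (continuous_I k (fun n => ?_) n)
      exact (continuous_apply _).sub (continuous_apply _)
    · intro n h
      rw [Real.norm_of_nonneg (le_min (I_nonneg _ _ _) (I_nonneg _ _ _))]
      exact min_le_left _ _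
  have hΘc : ∀ f : X × K → ℝ, Continuous f → Continuous (Θ f) := by
    intro f hf
    rw [continuous_iff_continuousAt]
    intro x₁
    rw [Metric.continuousAt_iff']
    intro η hη
    -- the sections of `d f` are uniformly close
    have hδ : (0 : ℝ) < η / 20 := by positivity
    have hunif : ∀ᶠ x in 𝓝 x₁, ∀ y, |d f x y - d f x₁ y| ≤ η / 20 := by
      filter_upwards [uniform_sections hf x₁ hδ] with x hx y
      have : d f x y - d f x₁ y = f (x, y) - f (x₁, y) := by simp only [d]; ring
      rw [this]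
      exact (hx y).le
    have hbdf : ∃ B : ℝ, ∀ y, |d f x₁ y| ≤ B := by
      have hc : Continuous (d f x₁) :=
        (hf.comp (Continuous.prodMk_right x₁)).sub (hf.comp (Continuous.prodMk_right x₀))
      obtain ⟨B, hB⟩ := isCompact_univ.exists_bound_of_continuousOn hc.continuousOn
      exact ⟨B, fun y => by simpa using hB y (Set.mem_univ y)⟩
    obtain ⟨B', hB'⟩ := hbdf
    -- choose N
    obtain ⟨N, hN⟩ : ∃ N, ∀ n, M k (d f x₁) (n + N) - M k (d f x₁) N ≤ η / 20 := by
      have hbdd : BddAbove (Set.range (M k (d f x₁))) :=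
        ⟨B', by rintro _ ⟨n, rfl⟩; exact M_le k _ hB' n⟩
      have ht := tendsto_atTop_ciSup (M_mono k (d f x₁)) hbdd
      obtain ⟨N, hN⟩ := (ht.eventually (lt_mem_nhds
        (show (⨆ i, M k (d f x₁) i) - η / 20 < ⨆ i, M k (d f x₁) i by linarith))).exists
      refine ⟨N, fun n => ?_⟩
      have := le_ciSup hbdd (n + N)
      linarith
    -- tails
    have htail : ∀ x, (∀ y, |d f x y - d f x₁ y| ≤ η / 20) →
        |Θ f x - ∑ n ∈ Finset.range N, min (I k (d g x) n) (I k (d f x) n)| ≤ 3 * (η / 20) := by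
      intro x hx
      have hnn : ∀ n, 0 ≤ min (I k (d g x) n) (I k (d f x) n) := fun n =>
        le_min (I_nonneg _ _ _) (I_nonneg _ _ _)
      have hs : Summable fun n => min (I k (d g x) n) (I k (d f x) n) :=
        Summable.of_nonneg_of_le hnn (fun n => min_le_left _ _) (summable_I k _ (hB x))
      have h1 := hs.sum_add_tsum_nat_add N
      have h2 : Θ f x - ∑ n ∈ Finset.range N, min (I k (d g x) n) (I k (d f x) n) =
          ∑' n, min (I k (d g x) (n + N)) (I k (d f x) (n + N)) := by
        simp only [Θ]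
        rw [← h1]
        ring
      rw [h2, abs_of_nonneg (tsum_nonneg fun n => hnn _)]
      refine Real.tsum_le_of_sum_range_le (fun n => hnn _) fun n => ?_
      refine (Finset.sum_le_sum fun i _ => min_le_right _ _).trans ?_
      rw [sum_I]
      have h3 := M_lip k (d f x) (d f x₁) hx (n + N)
      have h4 := M_lip k (d f x₁) (d f x) (fun y => by rw [abs_sub_comm]; exact hx y) N
      have h5 := hN n
      linarith
    have hpart : Continuous fun x =>
        ∑ n ∈ Finset.range N, min (I k (d g x) n) (I k (d f x) n) := by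
      refine continuous_finsetSum _ fun n _ => ?_
      refine (continuous_I k (fun m => ?_) n).min (continuous_I k (fun m => ?_) n)
      · exact (hgX (k m)).sub continuous_const
      · exact (hf.comp (Continuous.prodMk_left (k m))).sub continuous_const
    have hp := Metric.tendsto_nhds.1 (hpart.tendsto x₁) (η / 20) hδ
    filter_upwards [hunif, hp] with x hx hpx
    have h1 := htail x hx
    have h2 := htail x₁ (fun y => by simp; positivity)
    rw [Real.dist_eq] at hpx ⊢
    rw [abs_le] at h1 h2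
    rw [abs_lt] at hpx ⊢
    constructor <;> linarith [h1.1, h1.2, h2.1, h2.2, hpx.1, hpx.2]
  have hcont := transfer hX hA hg Θ hΘ hΘc
  have hΘg : ∀ x, Θ g x = ∑' n, I k (d g x) n := by
    intro x
    simp only [Θ, min_self]
  have hM0 : Continuous fun x => M k (d g x) 0 :=
    continuous_M k (F := fun x => d g x) (fun n => (hgX (k n)).sub continuous_const) 0
  have hd0 : d g x₀ = fun _ => 0 := by
    funext y
    simp [d]
  have hMz : ∀ n, M k (fun _ : K => (0 : ℝ)) n = 0 := by
    intro n
    induction n with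
    | zero => simp [M]
    | succ n ih => simp [M, ih]
  have h0 : M k (d g x₀) 0 + Θ g x₀ = 0 := by
    rw [hΘg, hd0]
    simp [I, hMz]
  have hlim : Tendsto (fun x => M k (d g x) 0 + Θ g x) (𝓝 x₀) (𝓝 0) := by
    rw [← h0]
    exact (hM0.add hcont).tendsto x₀
  filter_upwards [hlim.eventually (gt_mem_nhds hε)] with x hx i
  refine lt_of_le_of_lt ?_ hx
  rw [hΘg]
  exact (le_M k (d g x) i).trans (M_le_tsum k _ (hB x) i)

/-- finite maxima -/
noncomputable def NF (g : X × K → ℝ) (x₀ : X) (F : Finset K) (x : X) : ℝ :=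
  ((F.sup fun k => ‖g (x, k) - g (x₀, k)‖₊ : NNReal) : ℝ)

theorem NF_cont {g : X × K → ℝ} (hgX : ∀ k, Continuous fun x => g (x, k)) (x₀ : X)
    (F : Finset K) : Continuous (NF g x₀ F) := by
  refine NNReal.continuous_coe.comp ?_
  exact Continuous.finset_sup_apply fun k _ => ((hgX k).sub continuous_const).nnnorm

theorem le_NF (g : X × K → ℝ) (x₀ : X) (F : Finset K) (x : X) {k : K} (hk : k ∈ F) :
    |g (x, k) - g (x₀, k)| ≤ NF g x₀ F x := by
  have h1 : ‖g (x, k) - g (x₀, k)‖₊ ≤ F.sup fun k => ‖g (x, k) - g (x₀, k)‖₊ :=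
    Finset.le_sup (f := fun k => ‖g (x, k) - g (x₀, k)‖₊) hk
  have h2 : ((‖g (x, k) - g (x₀, k)‖₊ : NNReal) : ℝ) ≤ NF g x₀ F x := by
    exact_mod_cast h1
  simpa using h2

theorem NF_le (g : X × K → ℝ) (x₀ : X) (F : Finset K) (x : X) {B : ℝ} (hB0 : 0 ≤ B)
    (hB : ∀ k ∈ F, |g (x, k) - g (x₀, k)| ≤ B) : NF g x₀ F x ≤ B := by
  have h1 : (F.sup fun k => ‖g (x, k) - g (x₀, k)‖₊) ≤ B.toNNReal := by
    refine Finset.sup_le fun k hk => ?_
    rw [← NNReal.coe_le_coe, Real.coe_toNNReal _ hB0]
    simpa using hB k hk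
  have h2 : (((F.sup fun k => ‖g (x, k) - g (x₀, k)‖₊ : NNReal) : ℝ)) ≤ (B.toNNReal : ℝ) := by
    exact_mod_cast h1
  rwa [Real.coe_toNNReal _ hB0] at h2

theorem NF_nonneg (g : X × K → ℝ) (x₀ : X) (F : Finset K) (x : X) : 0 ≤ NF g x₀ F x :=
  NNReal.coe_nonneg _

theorem NF_mono (g : X × K → ℝ) (x₀ : X) (x : X) : Monotone fun F => NF g x₀ F x := by
  intro F F' h
  exact NF_le g x₀ F x (NF_nonneg _ _ _ _) fun k hk => le_NF g x₀ F' x (h hk)

theorem uniform (hX : Good X) {A : Set (Cp (X × K))} (hA : SeqCl A) {g : X × K → ℝ}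
    (hg : g ∈ closure (Subtype.val '' A : Set (X × K → ℝ)))
    (hgX : ∀ k, Continuous fun x => g (x, k)) (hgK : ∀ x, Continuous fun k => g (x, k))
    (x₀ : X) {ε : ℝ} (hε : 0 < ε) :
    ∀ᶠ x in 𝓝 x₀, ∀ k, |g (x, k) - g (x₀, k)| < ε := by
  have hbd : ∀ x, ∃ B : ℝ, 0 ≤ B ∧ ∀ y, |g (x, y) - g (x₀, y)| ≤ B := by
    intro x
    have hc : Continuous fun y => g (x, y) - g (x₀, y) := (hgK x).sub (hgK x₀)
    obtain ⟨B, hB⟩ := isCompact_univ.exists_bound_of_continuousOn hc.continuousOn
    exact ⟨max B 0, le_max_right _ _, fun y => (by simpa using hB y (Set.mem_univ y) :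
      |g (x, y) - g (x₀, y)| ≤ B).trans (le_max_left _ _)⟩
  choose B hB0 hB using hbd
  let S : Set (Cp X) := Set.range fun F : Finset K => ⟨NF g x₀ F, NF_cont hgX x₀ F⟩
  have hS : SeqCl S := by
    intro w hw
    choose F hF using hw
    -- cluster point in the product
    have hcomp : IsCompact (Set.univ.pi fun x : X => Set.Icc (0 : ℝ) (B x)) :=
      isCompact_univ_pi fun x => isCompact_Icc
    obtain ⟨h, -, hh⟩ := hcomp.exists_mapClusterPt (f := (atTop : Filter ℕ))
      (u := fun n => (w n).1) (by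
        refine tendsto_principal.2 (Eventually.of_forall fun n => ?_)
        intro x _
        show (w n).1 x ∈ _
        rw [← hF n]
        exact ⟨NF_nonneg _ _ _ _, NF_le _ _ _ _ (hB0 x) fun k _ => hB x k⟩)
    have hcont : Continuous h := by
      rw [continuous_iff_continuousAt]
      intro x₁
      rw [Metric.continuousAt_iff']
      intro η hη
      have hη2 : 0 < η / 2 := by positivity
      have hequi : ∀ᶠ x in 𝓝 x₁, ∀ n, ∀ k ∈ F n, |g (x, k) - g (x₁, k)| < η / 2 := by
        have hcount : (⋃ n, (F n : Set K)).Countable :=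
          Set.countable_iUnion fun n => (F n).countable_toSet
        by_cases hne : (⋃ n, (F n : Set K)).Nonempty
        · obtain ⟨k, hk⟩ := hcount.exists_eq_range hne
          filter_upwards [key hX hA hg hgX hgK k x₁ hη2] with x hx n y hy
          have : y ∈ Set.range k := hk ▸ Set.mem_iUnion.2 ⟨n, hy⟩
          obtain ⟨i, rfl⟩ := this
          exact hx i
        · refine Eventually.of_forall fun x n y hy => ?_
          exact absurd ⟨y, Set.mem_iUnion.2 ⟨n, hy⟩⟩ hne
      filter_upwards [hequi] with x hx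
      -- closed condition
      have hw : ∀ n, |(w n).1 x - (w n).1 x₁| ≤ η / 2 := by
        intro n
        rw [← hF n, abs_le]
        have h1 : NF g x₀ (F n) x ≤ NF g x₀ (F n) x₁ + η / 2 := by
          refine NF_le _ _ _ _ (by have := NF_nonneg g x₀ (F n) x₁; linarith) fun k hk => ?_
          have e1 := le_NF g x₀ (F n) x₁ hk
          have e2 := hx n k hk
          have e3 : g (x, k) - g (x₀, k) = (g (x, k) - g (x₁, k)) + (g (x₁, k) - g (x₀, k)) := by
            ring
          rw [e3]
          refine (abs_add_le _ _).trans ?_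
          linarith
        have h2 : NF g x₀ (F n) x₁ ≤ NF g x₀ (F n) x + η / 2 := by
          refine NF_le _ _ _ _ (by have := NF_nonneg g x₀ (F n) x; linarith) fun k hk => ?_
          have e1 := le_NF g x₀ (F n) x hk
          have e2 := hx n k hk
          rw [abs_sub_comm] at e2
          have e3 : g (x₁, k) - g (x₀, k) = (g (x₁, k) - g (x, k)) + (g (x, k) - g (x₀, k)) := by
            ring
          rw [e3]
          refine (abs_add_le _ _).trans ?_
          linarith
        constructor
        · show -(η / 2) ≤ NF g x₀ (F n) x - NF g x₀ (F n) x₁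
          linarith
        · show NF g x₀ (F n) x - NF g x₀ (F n) x₁ ≤ η / 2
          linarith
      have hmc : MapClusterPt (h x - h x₁) atTop (fun n => (w n).1 x - (w n).1 x₁) :=
        hh.continuousAt_comp (f := fun f : X → ℝ => f x - f x₁) (by fun_prop)
      have hmem : h x - h x₁ ∈ closure (Set.Icc (-(η / 2)) (η / 2)) := by
        refine mem_closure_iff_clusterPt.2 (ClusterPt.mono
          (show ClusterPt (h x - h x₁) (map (fun n => (w n).1 x - (w n).1 x₁) atTop) from hmc) ?_)
        exact tendsto_principal.2 (Eventually.of_forall fun n => abs_le.1 (hw n))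
      rw [isClosed_Icc.closure_eq] at hmem
      rw [Real.dist_eq]
      exact lt_of_le_of_lt (abs_le.2 hmem) (by linarith)
    exact ⟨⟨h, hcont⟩, mapClusterPt_subtype hh⟩
  -- the supremum is continuous
  let N : X → ℝ := fun x => ⨆ F : Finset K, NF g x₀ F x
  have hbdd : ∀ x, BddAbove (Set.range fun F : Finset K => NF g x₀ F x) := fun x =>
    ⟨B x, by rintro _ ⟨F, rfl⟩; exact NF_le _ _ _ _ (hB0 x) fun k _ => hB x k⟩
  have hN : N ∈ closure (Subtype.val '' S : Set (X → ℝ)) := by
    refine mem_closure_of_tendsto (b := (atTop : Filter (Finset K)))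
      (f := fun F => NF g x₀ F) ?_ (Eventually.of_forall fun F => ⟨_, ⟨F, rfl⟩, rfl⟩)
    rw [tendsto_pi_nhds]
    intro x
    exact tendsto_atTop_ciSup (NF_mono g x₀ x) (hbdd x)
  have hNc := hX S hS N hN
  have hN0 : N x₀ = 0 := by
    have : ∀ F : Finset K, NF g x₀ F x₀ = 0 := fun F =>
      le_antisymm (NF_le _ _ _ _ le_rfl fun k _ => by simp) (NF_nonneg _ _ _ _)
    simp only [N, this, ciSup_const]
  have hlim : Tendsto N (𝓝 x₀) (𝓝 0) := by
    rw [← hN0]
    exact hNc.tendsto x₀
  filter_upwards [hlim.eventually (gt_mem_nhds hε)] with x hx k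
  refine lt_of_le_of_lt ?_ hx
  exact (le_NF g x₀ {k} x (Finset.mem_singleton_self k)).trans (le_ciSup (hbdd x) {k})

theorem good_prod (hX : Good X) : Good (X × K) := by
  intro A hA g hg
  have hgX : ∀ k, Continuous fun x => g (x, k) := by
    intro k
    exact transfer hX hA hg (fun h x => h (x, k)) (by fun_prop)
      (fun f hf => hf.comp (Continuous.prodMk_left k))
  have hgK : ∀ x, Continuous fun k => g (x, k) := by
    intro x
    exact transfer (good_of_compact K) hA hg (fun h k => h (x, k)) (by fun_prop)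
      (fun f hf => hf.comp (Continuous.prodMk_right x))
  rw [continuous_iff_continuousAt]
  rintro ⟨x₀, k₀⟩
  rw [Metric.continuousAt_iff']
  intro ε hε
  have hε2 : 0 < ε / 2 := by positivity
  have h1 := uniform hX hA hg hgX hgK x₀ hε2
  have h2 := Metric.tendsto_nhds.1 ((hgK x₀).tendsto k₀) (ε / 2) hε2
  rw [nhds_prod_eq]
  filter_upwards [h1.prod_mk h2] with p hp
  rw [Real.dist_eq] at hp ⊢
  have e1 := hp.1 p.2
  have e2 := hp.2
  have e3 : g p - g (x₀, k₀) = (g (p.1, p.2) - g (x₀, p.2)) + (g (x₀, p.2) - g (x₀, k₀)) := by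
    ring
  rw [e3]
  refine (abs_add_le _ _).trans_lt ?_
  linarith

end key

/-- If `X` is weakly Grothendieck and `K` is compact then `X × K` is weakly Grothendieck. -/
theorem result : ∀ (X : Type u) [TopologicalSpace X] [T35Space X], WeaklyGrothendieck X →
    ∀ (K : Type v) [TopologicalSpace K] [CompactSpace K] [T2Space K],
      WeaklyGrothendieck (X × K) := by
  intro X _ _ hX K _ _ _
  exact weakly_of_good (good_prod (good_of_weakly hX))

end Pool.Agent.Results.MP_8a2df8_gt.WeakProductCompact
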